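import Pool.Agent.Lib.MP_554556_an.ClMain

set_option autoImplicit false

namespace Pool.Agent.Results.MP_554556_an.Classification

open Pool.Agent.Lib.MP_554556_an

/-- The system is stably bounded if and only if the root subspaces of `C` at nonzero eigenvalues
are `GC`-definite and the root subspace at zero lies in a quaternionic line. -/
theorem result (n l : ℕ) (_hn : 1 ≤ n) (hl : 1 ≤ l)
    (A : Fin (l + 1) → Matrix (Fin n) (Fin n) (Quaternion ℝ)) (hA : Symm A)
    (hU : IsUnit (A (Fin.last l))) :
    StablyBounded A ↔
      (∀ lam : Quaternion ℝ, lam ≠ 0 → IsEigenvalue (companion A) lam →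
        IsPositive (Gmat A * companion A) (rootSubspace (companion A) lam) ∨
          IsNegative (Gmat A * companion A) (rootSubspace (companion A) lam)) ∧
      ∃ e : Fin l × Fin n → Quaternion ℝ,
        ∀ v ∈ rootSubspace (companion A) 0, ∃ a : Quaternion ℝ, v = fun i => e i * a := by
  obtain ⟨m, rfl⟩ : ∃ m, l = m + 1 := ⟨l - 1, by omega⟩
  exact classification A hA hU

/-- The case of an invertible companion matrix: every root subspace is definite. -/
theorem q1 (n l : ℕ) (hn : 1 ≤ n) (hl : 1 ≤ l)
    (A : Fin (l + 1) → Matrix (Fin n) (Fin n) (Quaternion ℝ)) (hA : Symm A)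
    (hU : IsUnit (A (Fin.last l))) (hS : StablyBounded A) (hC : IsUnit (companion A))
    (lam : Quaternion ℝ) (hlam : IsEigenvalue (companion A) lam) :
    IsPositive (Gmat A * companion A) (rootSubspace (companion A) lam) ∨
      IsNegative (Gmat A * companion A) (rootSubspace (companion A) lam) := by
  refine ((result n l hn hl A hA hU).1 hS).1 lam ?_ hlam
  rintro rfl
  obtain ⟨v, hv, h⟩ := hlam
  obtain ⟨u, hu⟩ := hC
  apply hv
  have h0 : (companion A).mulVec v = 0 := by rw [h]; funext i; simp
  have h1 : (u⁻¹ : (Matrix _ _ (Quaternion ℝ))ˣ).val.mulVec ((companion A).mulVec v) = v := by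
    rw [Matrix.mulVec_mulVec, ← hu, Units.inv_mul, Matrix.one_mulVec]
  rw [← h1, h0, Matrix.mulVec_zero]

end Pool.Agent.Results.MP_554556_an.Classification
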